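import Pool.Agent.V11223.AS.Graph

/-!
# The explicit set
-/

namespace Pool.Agent.V11223.AS

open Finset

/-- trial division -/
def isPrimeB (q : ℕ) : Bool :=
  decide (2 ≤ q) && (List.range q).all fun d => !(decide (2 ≤ d) && decide (q % d = 0))

theorem isPrimeB_iff (q : ℕ) : isPrimeB q = true ↔ q.Prime := by
  unfold isPrimeB
  rw [Nat.prime_def]
  simp only [Bool.and_eq_true, decide_eq_true_eq, List.all_eq_true, List.mem_range,
    Bool.not_eq_true', Bool.and_eq_false_imp, decide_eq_false_iff_not]
  constructor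
  · rintro ⟨h1, h2⟩
    refine ⟨h1, fun m hm => ?_⟩
    by_contra hcon
    push Not at hcon
    have hle : m ≤ q := Nat.le_of_dvd (by omega) hm
    have hm0 : m ≠ 0 := by
      rintro rfl
      rw [zero_dvd_iff] at hm
      omega
    exact h2 m (by omega) (by omega) (Nat.mod_eq_zero_of_dvd hm)
  · rintro ⟨h1, h2⟩
    refine ⟨h1, fun d hd hd2 h3 => ?_⟩
    rcases h2 d (Nat.dvd_of_mod_eq_zero h3) with h | h <;> omega

/-- the prime used -/
def thePrime (n : ℕ) : ℕ :=
  ((List.range (4 * n + 1)).filter fun q => isPrimeB q && (decide (3 ≤ q) &&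
    decide (2 * n ≤ q * q * q))).headD 0

/-- the condition defining the set, for given carries -/
def condC (p s c d : ℕ) : Bool :=
  decide ((s / (p * p) + (p - d)) % p =
    ((s % p) * (s % p) + ((s / p) % p + (p - c)) * ((s / p) % p + (p - c))) % p)

/-- the set, in increasing order -/
def theSet (n : ℕ) : List ℕ :=
  (List.range (4 * n)).filter fun s => decide (2 * n ≤ s) &&
    (condC (thePrime n) s 0 0 || condC (thePrime n) s 0 1 || condC (thePrime n) s 1 0 ||
      condC (thePrime n) s 1 1)

theorem thePrime_spec {n : ℕ} (hn : 2 ≤ n) : (thePrime n).Prime ∧ 3 ≤ thePrime n ∧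
    2 * n ≤ thePrime n ^ 3 ∧ thePrime n ^ 3 ≤ 128 * n := by
  -- the cube root
  obtain ⟨m, hm1, hm2⟩ : ∃ m, 2 * n ≤ m ^ 3 ∧ ∀ k < m, k ^ 3 < 2 * n := by
    have h : ∃ m, 2 * n ≤ m ^ 3 := ⟨2 * n, Nat.le_self_pow (by norm_num) _⟩
    exact ⟨Nat.find h, Nat.find_spec h, fun k hk => not_le.1 (Nat.find_min h hk)⟩
  have hm0 : 2 ≤ m := by
    by_contra h
    have : m = 0 ∨ m = 1 := by omega
    rcases this with rfl | rfl <;> omega
  obtain ⟨q, hq, hq1, hq2⟩ := Nat.exists_prime_lt_and_le_two_mul m (by omega)
  have hq3 : q ^ 3 ≤ 128 * n := by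
    have h1 := hm2 (m - 1) (by omega)
    have h2 : q ≤ 4 * (m - 1) := by omega
    calc q ^ 3 ≤ (4 * (m - 1)) ^ 3 := Nat.pow_le_pow_left h2 3
      _ = 64 * (m - 1) ^ 3 := by ring
      _ ≤ 128 * n := by omega
  have hmn : 2 * m ≤ 4 * n := by
    by_contra hcon
    have h1 := hm2 (2 * n) (by omega)
    have h2 : 2 * n ≤ (2 * n) ^ 3 := Nat.le_self_pow (by norm_num) _
    omega
  have hmem : q ∈ (List.range (4 * n + 1)).filter fun q => isPrimeB q && (decide (3 ≤ q) &&
      decide (2 * n ≤ q * q * q)) := by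
    rw [List.mem_filter, List.mem_range]
    refine ⟨by omega, ?_⟩
    simp only [Bool.and_eq_true, decide_eq_true_eq, isPrimeB_iff]
    refine ⟨hq, by omega, ?_⟩
    calc 2 * n ≤ m ^ 3 := hm1
      _ ≤ q ^ 3 := Nat.pow_le_pow_left hq1.le 3
      _ = q * q * q := by ring
  have hsorted : ((List.range (4 * n + 1)).filter fun q => isPrimeB q && (decide (3 ≤ q) &&
      decide (2 * n ≤ q * q * q))).Pairwise (· < ·) := (List.pairwise_lt_range).filter _
  unfold thePrime
  cases hl : (List.range (4 * n + 1)).filter fun q => isPrimeB q && (decide (3 ≤ q) &&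
      decide (2 * n ≤ q * q * q)) with
  | nil => rw [hl] at hmem; simp at hmem
  | cons a l =>
    rw [hl] at hmem hsorted
    have ha : a ∈ (List.range (4 * n + 1)).filter fun q => isPrimeB q && (decide (3 ≤ q) &&
        decide (2 * n ≤ q * q * q)) := by rw [hl]; exact List.mem_cons_self
    rw [List.mem_filter] at ha
    simp only [Bool.and_eq_true, decide_eq_true_eq, isPrimeB_iff] at ha
    rw [List.headD_cons]
    refine ⟨ha.2.1, ha.2.2.1, ?_, ?_⟩
    · calc 2 * n ≤ a * a * a := ha.2.2.2
        _ = a ^ 3 := by ring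
    · have haq : a ≤ q := by
        rcases List.mem_cons.1 hmem with h | h
        · exact h.symm.le
        · exact ((List.pairwise_cons.1 hsorted).1 q h).le
      exact (Nat.pow_le_pow_left haq 3).trans hq3

theorem nodup_theSet (n : ℕ) : (theSet n).Nodup := (List.nodup_range).filter _

theorem mem_theSet {n s : ℕ} : s ∈ theSet n ↔ s < 4 * n ∧ 2 * n ≤ s ∧
    (condC (thePrime n) s 0 0 = true ∨ condC (thePrime n) s 0 1 = true ∨
      condC (thePrime n) s 1 0 = true ∨ condC (thePrime n) s 1 1 = true) := by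
  unfold theSet
  simp only [List.mem_filter, List.mem_range, Bool.and_eq_true, decide_eq_true_eq,
    Bool.or_eq_true]
  tauto

/-- The number of elements with given carries. -/
theorem card_cond {p N c d : ℕ} (hp : 0 < p) (_ : d ≤ 1) (hN : N ≤ 2 * p ^ 3) :
    ((range N).filter fun s => condC p s c d = true).card ≤ 2 * p ^ 2 := by
  have h : ((range N).filter fun s => condC p s c d = true).card ≤
      (range p ×ˢ range p ×ˢ range 2).card := by
    refine card_le_card_of_injOn (fun s => (s % p, (s / p) % p, s / (p * p) / p)) ?_ ?_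
    · intro s hs
      rw [mem_coe, mem_filter, mem_range] at hs
      rw [mem_coe, mem_product, mem_product, mem_range, mem_range, mem_range]
      refine ⟨Nat.mod_lt _ hp, Nat.mod_lt _ hp, ?_⟩
      change s / (p * p) / p < 2
      rw [Nat.div_div_eq_div_mul]
      rw [Nat.div_lt_iff_lt_mul (by positivity)]
      calc s < N := hs.1
        _ ≤ 2 * p ^ 3 := hN
        _ = 2 * (p * p * p) := by ring
    · intro s hs t ht hst
      rw [mem_coe, mem_filter] at hs ht
      simp only [Prod.mk.injEq] at hst
      obtain ⟨h1, h2, h3⟩ := hst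
      have hs2 := hs.2
      have ht2 := ht.2
      unfold condC at hs2 ht2
      rw [decide_eq_true_eq] at hs2 ht2
      rw [h1, h2, ← ht2] at hs2
      -- the top digits agree modulo p
      have h4 : s / (p * p) % p = t / (p * p) % p := by
        have h5 : s / (p * p) + (p - d) ≡ t / (p * p) + (p - d) [MOD p] := hs2
        exact Nat.ModEq.add_right_cancel' _ h5
      have h6 : s / (p * p) = t / (p * p) := by
        rw [← Nat.div_add_mod (s / (p * p)) p, ← Nat.div_add_mod (t / (p * p)) p, h3, h4]
      have h7 : s / p = t / p := by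
        rw [← Nat.div_add_mod (s / p) p, ← Nat.div_add_mod (t / p) p, h2,
          Nat.div_div_eq_div_mul, Nat.div_div_eq_div_mul, h6]
      rw [← Nat.div_add_mod s p, ← Nat.div_add_mod t p, h7, h1]
  refine h.trans (le_of_eq ?_)
  rw [card_product, card_product, card_range, card_range]
  ring

theorem length_theSet {n : ℕ} (hn : 2 ≤ n) : (theSet n).length ≤ 8 * thePrime n ^ 2 := by
  obtain ⟨hp, hp3, hp1, hp2⟩ := thePrime_spec hn
  set p := thePrime n with hpdef
  rw [← List.toFinset_card_of_nodup (nodup_theSet n)]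
  have hsub : (theSet n).toFinset ⊆
      ((range (4 * n)).filter fun s => condC p s 0 0 = true) ∪
      (((range (4 * n)).filter fun s => condC p s 0 1 = true) ∪
      (((range (4 * n)).filter fun s => condC p s 1 0 = true) ∪
      ((range (4 * n)).filter fun s => condC p s 1 1 = true))) := by
    intro s hs
    rw [List.mem_toFinset, mem_theSet] at hs
    simp only [mem_union, mem_filter, mem_range]
    tauto
  have hN : 4 * n ≤ 2 * p ^ 3 := by omega
  have h0 : 0 < p := by omega
  refine (card_le_card hsub).trans ?_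
  refine (card_union_le _ _).trans ?_
  have e1 := card_cond (c := 0) (d := 0) h0 (by omega) hN
  have e2 := card_cond (c := 0) (d := 1) h0 (by omega) hN
  have e3 := card_cond (c := 1) (d := 0) h0 (by omega) hN
  have e4 := card_cond (c := 1) (d := 1) h0 (by omega) hN
  have f1 := card_union_le ((range (4 * n)).filter fun s => condC p s 0 1 = true)
    (((range (4 * n)).filter fun s => condC p s 1 0 = true) ∪
      ((range (4 * n)).filter fun s => condC p s 1 1 = true))
  have f2 := card_union_le ((range (4 * n)).filter fun s => condC p s 1 0 = true)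
    ((range (4 * n)).filter fun s => condC p s 1 1 = true)
  omega

/-- The digits of a number. -/
def dig (p a : ℕ) : V p := (((a % p : ℕ) : ZMod p), (((a / p) % p : ℕ) : ZMod p),
  ((a / (p * p) : ℕ) : ZMod p))

/-- If the digits of `a` and `b` are adjacent, then `a + b` satisfies the condition for the carries
of this addition. -/
theorem cond_of_adj {p : ℕ} [Fact p.Prime] {a b : ℕ} (h : Adj (dig p a) (dig p b)) :
    ∃ c d, c ≤ 1 ∧ d ≤ 1 ∧ condC p (a + b) c d = true := by
  have hp : 0 < p := (Fact.out : p.Prime).pos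
  set c := (a % p + b % p) / p with hc
  set d := ((a / p) % p + (b / p) % p + c) / p with hd
  have hc1 : c ≤ 1 := by
    have h1 := Nat.mod_lt a hp
    have h2 := Nat.mod_lt b hp
    have : c < 2 := by rw [hc, Nat.div_lt_iff_lt_mul hp]; omega
    omega
  have hd1 : d ≤ 1 := by
    have h1 := Nat.mod_lt (a / p) hp
    have h2 := Nat.mod_lt (b / p) hp
    have : d < 2 := by rw [hd, Nat.div_lt_iff_lt_mul hp]; omega
    omega
  -- digits of the sum
  have e0 : (a + b) % p + c * p = a % p + b % p := by
    have h1 : (a + b) % p = (a % p + b % p) % p := Nat.add_mod a b p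
    rw [h1, hc]
    have := Nat.mod_add_div (a % p + b % p) p
    rw [mul_comm] at this
    exact this
  have hdiv : ∀ x y : ℕ, (x + y) / p = x / p + y / p + (x % p + y % p) / p := by
    intro x y
    have h1 := Nat.div_add_mod x p
    have h2 := Nat.div_add_mod y p
    have h3 : x + y = p * (x / p + y / p) + (x % p + y % p) := by
      rw [mul_add]
      omega
    conv_lhs => rw [h3]
    rw [Nat.mul_add_div hp]
  have e1 : (a + b) / p = a / p + b / p + c := by rw [hdiv, hc]
  have e2 : ((a + b) / p) % p + d * p = (a / p) % p + (b / p) % p + c := by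
    have h1 : ((a + b) / p) % p = ((a / p) % p + (b / p) % p + c) % p := by
      rw [e1, Nat.add_mod (a / p + b / p) c, Nat.add_mod (a / p) (b / p)]
      simp [Nat.add_mod]
    rw [h1, hd]
    have := Nat.mod_add_div ((a / p) % p + (b / p) % p + c) p
    rw [mul_comm] at this
    exact this
  have e3 : (a + b) / (p * p) = a / (p * p) + b / (p * p) + d := by
    rw [← Nat.div_div_eq_div_mul, e1, ← Nat.div_div_eq_div_mul, ← Nat.div_div_eq_div_mul]
    have h1 := Nat.div_add_mod (a / p) p
    have h2 := Nat.div_add_mod (b / p) p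
    have h3 : a / p + b / p + c = p * (a / p / p + b / p / p) + ((a / p) % p + (b / p) % p + c) := by
      rw [mul_add]
      omega
    conv_lhs => rw [h3]
    rw [Nat.mul_add_div hp]
  refine ⟨c, d, hc1, hd1, ?_⟩
  unfold condC
  rw [decide_eq_true_eq]
  have hpp : ((p : ℕ) : ZMod p) = 0 := ZMod.natCast_self p
  have key : (((a + b) / (p * p) + (p - d) : ℕ) : ZMod p) =
      (((a + b) % p * ((a + b) % p) + ((a + b) / p % p + (p - c)) *
        ((a + b) / p % p + (p - c)) : ℕ) : ZMod p) := by
    have hdp : d ≤ p := by omega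
    have hcp : c ≤ p := by omega
    push_cast [Nat.cast_sub hdp, Nat.cast_sub hcp]
    have g0 : (((a + b) % p : ℕ) : ZMod p) = ((a % p : ℕ) : ZMod p) + ((b % p : ℕ) : ZMod p) := by
      have := congrArg (Nat.cast : ℕ → ZMod p) e0
      push_cast at this
      rw [hpp, mul_zero, add_zero] at this
      exact this
    have g1 : (((a + b) / p % p : ℕ) : ZMod p) =
        ((a / p % p : ℕ) : ZMod p) + ((b / p % p : ℕ) : ZMod p) + (c : ZMod p) := by
      have := congrArg (Nat.cast : ℕ → ZMod p) e2
      push_cast at this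
      rw [hpp, mul_zero, add_zero] at this
      exact this
    rw [e3]
    push_cast
    have h1 := h
    unfold Adj dig at h1
    simp only at h1
    rw [hpp, g0, g1]
    linear_combination h1
  rw [ZMod.natCast_eq_natCast_iff] at key
  exact key

theorem dig_inj {p : ℕ} {a b : ℕ} (ha : a < p ^ 3) (hb : b < p ^ 3)
    (h : dig p a = dig p b) : a = b := by
  have hp : 0 < p := by
    rcases Nat.eq_zero_or_pos p with rfl | h
    · simp at ha
    · exact h
  unfold dig at h
  simp only [Prod.mk.injEq] at h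
  obtain ⟨h1, h2, h3⟩ := h
  rw [ZMod.natCast_eq_natCast_iff] at h1 h2 h3
  have g1 : a % p = b % p := Nat.ModEq.eq_of_lt_of_lt h1 (Nat.mod_lt _ hp) (Nat.mod_lt _ hp)
  have g2 : a / p % p = b / p % p := Nat.ModEq.eq_of_lt_of_lt h2 (Nat.mod_lt _ hp) (Nat.mod_lt _ hp)
  have ha' : a / (p * p) < p := by
    rw [Nat.div_lt_iff_lt_mul (by positivity)]
    calc a < p ^ 3 := ha
      _ = p * (p * p) := by ring
  have hb' : b / (p * p) < p := by
    rw [Nat.div_lt_iff_lt_mul (by positivity)]
    calc b < p ^ 3 := hb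
      _ = p * (p * p) := by ring
  have g3 : a / (p * p) = b / (p * p) := Nat.ModEq.eq_of_lt_of_lt h3 ha' hb'
  have g4 : a / p = b / p := by
    rw [← Nat.div_add_mod (a / p) p, ← Nat.div_add_mod (b / p) p, g2,
      Nat.div_div_eq_div_mul, Nat.div_div_eq_div_mul, g3]
  rw [← Nat.div_add_mod a p, ← Nat.div_add_mod b p, g4, g1]

theorem card_admissible {n : ℕ} (hn : 2 ≤ n) (A : Finset ℕ) (hA : A ⊆ Finset.Ico n (2 * n))
    (hadm : ∀ a ∈ A, ∀ b ∈ A, a ≠ b → a + b ∉ theSet n) :
    A.card ≤ thePrime n ^ 2 + thePrime n := by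
  obtain ⟨hp, hp3, hp1, hp2⟩ := thePrime_spec hn
  have : Fact (thePrime n).Prime := ⟨hp⟩
  have hlt : ∀ a ∈ A, a < thePrime n ^ 3 := by
    intro a ha
    have := (Finset.mem_Ico.1 (hA ha)).2
    omega
  have hinj : Set.InjOn (dig (thePrime n)) (A : Set ℕ) := by
    intro a ha b hb h
    exact dig_inj (hlt a ha) (hlt b hb) h
  rw [← card_image_of_injOn hinj]
  refine indep_card hp3 _ ?_
  intro x hx y hy hxy hadj
  obtain ⟨a, ha, rfl⟩ := Finset.mem_image.1 hx
  obtain ⟨b, hb, rfl⟩ := Finset.mem_image.1 hy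
  have hab : a ≠ b := fun h => hxy (by rw [h])
  apply hadm a ha b hb hab
  obtain ⟨c, d, hc, hd, h⟩ := cond_of_adj hadj
  have h1 := Finset.mem_Ico.1 (hA ha)
  have h2 := Finset.mem_Ico.1 (hA hb)
  rw [mem_theSet]
  refine ⟨by omega, by omega, ?_⟩
  have hc' : c = 0 ∨ c = 1 := by omega
  have hd' : d = 0 ∨ d = 1 := by omega
  rcases hc' with rfl | rfl <;> rcases hd' with rfl | rfl <;> tauto

end Pool.Agent.V11223.AS
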