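import Mathlib

/-!
# Independent sets of the paraboloid sum graph
-/

namespace Pool.Agent.V11223.AS

open Finset

variable {p : ℕ} [Fact p.Prime]

/-- the vertices -/
abbrev V (p : ℕ) : Type := ZMod p × ZMod p × ZMod p

/-- `a + b` lies on the paraboloid -/
def Adj (a b : V p) : Prop := a.2.2 + b.2.2 = (a.1 + b.1) ^ 2 + (a.2.1 + b.2.1) ^ 2

instance (a b : V p) : Decidable (Adj a b) := by unfold Adj; infer_instance

theorem Adj.symm' {a b : V p} (h : Adj a b) : Adj b a := by
  unfold Adj at *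
  rw [add_comm b.2.2, add_comm b.1, add_comm b.2.1]
  exact h

theorem card_nbr (a : V p) : (univ.filter fun c : V p => Adj a c).card = p ^ 2 := by
  have h : (univ.filter fun c : V p => Adj a c) =
      (univ : Finset (ZMod p × ZMod p)).image
        (fun x => ((x.1, x.2, (a.1 + x.1) ^ 2 + (a.2.1 + x.2) ^ 2 - a.2.2) : V p)) := by
    ext ⟨x, y, z⟩
    simp only [mem_filter, mem_univ, true_and, mem_image, Prod.mk.injEq, Prod.exists]
    constructor
    · intro h
      refine ⟨x, y, rfl, rfl, ?_⟩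
      unfold Adj at h
      simp only at h
      rw [← h]; ring
    · rintro ⟨x', y', rfl, rfl, rfl⟩
      unfold Adj
      simp
  rw [h, card_image_of_injective]
  · rw [card_univ, Fintype.card_prod, ZMod.card, sq]
  · rintro ⟨x, y⟩ ⟨x', y'⟩ h
    simp only [Prod.mk.injEq] at h
    exact Prod.ext h.1 h.2.1

theorem two_ne (hp : 3 ≤ p) : (2 : ZMod p) ≠ 0 := by
  intro h
  have h2 : ((2 : ℕ) : ZMod p) = 0 := by exact_mod_cast h
  rw [ZMod.natCast_eq_zero_iff] at h2
  have := Nat.le_of_dvd (by norm_num) h2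
  omega

theorem codeg (hp : 3 ≤ p) {a b : V p} (hab : a ≠ b) :
    (univ.filter fun c : V p => Adj a c ∧ Adj b c).card ≤ p := by
  have h2 := two_ne hp
  -- the third coordinate is determined by the others
  have key : ∀ c d : V p, Adj a c → Adj b c → Adj a d → Adj b d →
      2 * ((a.1 - b.1) * (c.1 - d.1) + (a.2.1 - b.2.1) * (c.2.1 - d.2.1)) = 0 := by
    intro c d h1 h2 h3 h4
    unfold Adj at h1 h2 h3 h4
    linear_combination (-1 : ZMod p) * h1 + h2 + h3 - h4
  by_cases hy : a.2.1 = b.2.1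
  · by_cases hx : a.1 = b.1
    · -- no common neighbours
      have : (univ.filter fun c : V p => Adj a c ∧ Adj b c) = ∅ := by
        rw [filter_eq_empty_iff]
        rintro c _ ⟨h3, h4⟩
        apply hab
        unfold Adj at h3 h4
        refine Prod.ext hx (Prod.ext hy ?_)
        rw [hx, hy] at h3
        have : a.2.2 + c.2.2 = b.2.2 + c.2.2 := by rw [h3, h4]
        exact add_right_cancel this
      rw [this]; simp
    · refine (card_le_card_of_injOn (t := (univ : Finset (ZMod p))) (fun c => c.2.1)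
        (fun _ _ => mem_coe.2 (mem_univ _)) ?_).trans (by rw [card_univ, ZMod.card])
      intro c hc d hd hcd
      simp only [coe_filter, mem_univ, true_and, Set.mem_ofPred_eq] at hc hd
      simp only at hcd
      have h5 := key c d hc.1 hc.2 hd.1 hd.2
      rw [hcd, sub_self, mul_zero, add_zero] at h5
      have h6 : c.1 = d.1 := by
        have := (mul_eq_zero.1 ((mul_eq_zero.1 h5).resolve_left h2)).resolve_left
          (sub_ne_zero.2 hx)
        exact sub_eq_zero.1 this
      refine Prod.ext h6 (Prod.ext hcd ?_)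
      have h7 := hc.1
      have h8 := hd.1
      unfold Adj at h7 h8
      rw [h6, hcd, ← h8] at h7
      exact add_left_cancel h7
  · refine (card_le_card_of_injOn (t := (univ : Finset (ZMod p))) (fun c => c.1)
      (fun _ _ => mem_coe.2 (mem_univ _)) ?_).trans (by rw [card_univ, ZMod.card])
    intro c hc d hd hcd
    simp only [coe_filter, mem_univ, true_and, Set.mem_ofPred_eq] at hc hd
    simp only at hcd
    have h5 := key c d hc.1 hc.2 hd.1 hd.2
    rw [hcd, sub_self, mul_zero, zero_add] at h5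
    have h6 : c.2.1 = d.2.1 := by
      have := (mul_eq_zero.1 ((mul_eq_zero.1 h5).resolve_left h2)).resolve_left
        (sub_ne_zero.2 hy)
      exact sub_eq_zero.1 this
    refine Prod.ext hcd (Prod.ext h6 ?_)
    have h7 := hc.1
    have h8 := hd.1
    unfold Adj at h7 h8
    rw [h6, hcd, ← h8] at h7
    exact add_left_cancel h7

/-- The number of neighbours in `A`. -/
def dg (A : Finset (V p)) (c : V p) : ℕ := (A.filter fun a => Adj a c).card

theorem sum_dg (A : Finset (V p)) : ∑ c, dg A c = A.card * p ^ 2 := by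
  unfold dg
  simp only [card_filter]
  rw [sum_comm]
  simp only [← card_filter]
  rw [sum_congr rfl fun a _ => card_nbr a]
  simp

theorem sum_dg_sq (hp : 3 ≤ p) (A : Finset (V p)) :
    ∑ c, dg A c ^ 2 ≤ A.card * p ^ 2 + A.card ^ 2 * p := by
  have h1 : ∀ c : V p, dg A c ^ 2 = ∑ a ∈ A, ∑ b ∈ A, if Adj a c ∧ Adj b c then 1 else 0 := by
    intro c
    unfold dg
    rw [sq, card_filter, sum_mul_sum]
    refine sum_congr rfl fun a _ => sum_congr rfl fun b _ => ?_
    by_cases h : Adj a c <;> by_cases h' : Adj b c <;> simp [h, h']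
  simp only [h1]
  rw [sum_comm]
  have h2 : ∀ a ∈ A, ∑ c : V p, ∑ b ∈ A, (if Adj a c ∧ Adj b c then 1 else 0) ≤
      p ^ 2 + A.card * p := by
    intro a ha
    rw [sum_comm]
    simp only [← card_filter]
    rw [← add_sum_erase A _ ha]
    refine Nat.add_le_add ?_ ?_
    · simp only [and_self]
      exact (card_nbr a).le
    · refine (sum_le_sum fun b hb => codeg hp (mem_erase.1 hb).1.symm).trans ?_
      rw [sum_const, smul_eq_mul]
      exact Nat.mul_le_mul_right _ (card_le_card (erase_subset _ _))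
  refine (sum_le_sum h2).trans ?_
  rw [sum_const, smul_eq_mul]
  apply le_of_eq
  ring

/-- Independent sets are small. -/
theorem indep_card (hp : 3 ≤ p) (A : Finset (V p))
    (hA : ∀ a ∈ A, ∀ b ∈ A, a ≠ b → ¬ Adj a b) : A.card ≤ p ^ 2 + p := by
  by_contra hcon
  push Not at hcon
  obtain ⟨K, hK⟩ : ∃ K : ℤ, K = ((A.card : ℕ) : ℤ) := ⟨_, rfl⟩
  have hKp : (p : ℤ) ^ 2 + p < K := by rw [hK]; exact_mod_cast hcon
  have hp0 : (0 : ℤ) < p := by exact_mod_cast (by omega : 0 < p)
  have h1 : (∑ c : V p, (dg A c : ℤ)) = K * p ^ 2 := by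
    rw [hK]; exact_mod_cast sum_dg A
  have h2 : (∑ c : V p, (dg A c : ℤ) ^ 2) ≤ K * p ^ 2 + K ^ 2 * p := by
    rw [hK]; exact_mod_cast sum_dg_sq hp A
  have h3 : (∑ c : V p, (p * (dg A c : ℤ) - K) ^ 2) ≤ K * p ^ 4 := by
    have e : ∀ c : V p, (p * (dg A c : ℤ) - K) ^ 2 =
        p ^ 2 * (dg A c : ℤ) ^ 2 - 2 * p * K * (dg A c : ℤ) + K ^ 2 := by
      intro c; ring
    simp only [e]
    rw [sum_add_distrib, sum_sub_distrib, ← mul_sum, ← mul_sum, h1]
    have hc : (∑ _c : V p, K ^ 2) = p ^ 3 * K ^ 2 := by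
      rw [sum_const, card_univ, Fintype.card_prod, Fintype.card_prod, ZMod.card]
      simp only [nsmul_eq_mul]
      push_cast
      ring
    rw [hc]
    have : (p : ℤ) ^ 2 * (∑ c : V p, (dg A c : ℤ) ^ 2) ≤ p ^ 2 * (K * p ^ 2 + K ^ 2 * p) :=
      mul_le_mul_of_nonneg_left h2 (by positivity)
    nlinarith
  have h4 : K * (K - p) ^ 2 ≤ ∑ c : V p, (p * (dg A c : ℤ) - K) ^ 2 := by
    have h5 : ∑ c ∈ A, (p * (dg A c : ℤ) - K) ^ 2 ≤ ∑ c : V p, (p * (dg A c : ℤ) - K) ^ 2 :=
      sum_le_sum_of_subset_of_nonneg (subset_univ _) fun c _ _ => sq_nonneg _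
    refine le_trans ?_ h5
    have h6 : ∀ c ∈ A, (K - p) ^ 2 ≤ (p * (dg A c : ℤ) - K) ^ 2 := by
      intro c hc
      have h7 : dg A c ≤ 1 := by
        unfold dg
        rw [card_le_one]
        intro a ha b hb
        rw [mem_filter] at ha hb
        have ha' : a = c := by
          by_contra hne
          exact hA a ha.1 c hc hne ha.2
        have hb' : b = c := by
          by_contra hne
          exact hA b hb.1 c hc hne hb.2
        rw [ha', hb']
      have h8 : (dg A c : ℤ) ≤ 1 := by exact_mod_cast h7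
      have h9 : (0 : ℤ) ≤ dg A c := by positivity
      have h10 : p * (dg A c : ℤ) ≤ p := by nlinarith
      have h11 : (p : ℤ) ≤ K := by nlinarith
      have h12 : (0 : ℤ) ≤ K - p := by linarith
      have h13 : K - p ≤ K - p * (dg A c : ℤ) := by linarith
      nlinarith
    have := sum_le_sum h6
    rw [sum_const, nsmul_eq_mul, ← hK] at this
    exact this
  have h14 : K * (K - p) ^ 2 ≤ K * p ^ 4 := h4.trans h3
  have hK0 : 0 < K := by nlinarith
  have h15 : (K - p) ^ 2 ≤ p ^ 4 := le_of_mul_le_mul_left h14 hK0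
  nlinarith

end Pool.Agent.V11223.AS
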