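import Pool.Agent.V11223.AS.Alg
import Pool.Agent.H532R2.IntPoly

/-!
# The set is computed in polynomial time
-/

namespace Pool.Agent.NPC.V11223AS

open Pool.Agent.V11223.AS

variable {α : Type} [TEnc α]

theorem isPrimeB_poly {q : α → ℕ} (hq : UPoly q) : Poly (fun a => isPrimeB (q a)) := by
  unfold isPrimeB
  refine Poly.and (Poly.decide_le (Poly.const 2) hq.toPoly) ?_
  refine Poly.all (p := fun a d => !(decide (2 ≤ d) && decide (q a % d = 0))) hq.range ?_
  exact Poly.not (Poly.and (Poly.decide_le (Poly.const 2) (Poly.snd Poly.id))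
    (Poly.decide_eq (Poly.mod (hq.toPoly.comp (Poly.fst Poly.id)) (Poly.snd Poly.id))
      (Poly.const 0)))

theorem headD_poly {β : Type} [TEnc β] {l : α → List β} {d : α → β} (hl : Poly l) (hd : Poly d) :
    Poly (fun a => (l a).headD (d a)) := by
  refine (Poly.listCases (g := d) (h := fun _ b _ => b) hl hd
    (Poly.fst (Poly.snd Poly.id))).congr fun a => ?_
  cases l a <;> rfl

theorem thePrime_poly {n : α → ℕ} (hn : UPoly n) : Poly (fun a => thePrime (n a)) := by
  have h4 : UPoly (fun a => 4 * n a + 1) := UPoly.add (UPoly.mul (UPoly.const 4) hn) (UPoly.const 1)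
  have h2 : Poly (fun a => 2 * n a) := (UPoly.mul (UPoly.const 2) hn).toPoly
  have h : Poly (fun a => (((List.range (4 * n a + 1)).filter fun q => decide (3 ≤ q) &&
      decide (2 * n a ≤ q * q * q)).filter fun q => isPrimeB (min q (4 * n a + 1))).headD 0) := by
    refine headD_poly ?_ (Poly.const 0)
    refine Poly.filter (p := fun a q => isPrimeB (min q (4 * n a + 1))) ?_ ?_
    · refine Poly.filter (p := fun a q => decide (3 ≤ q) && decide (2 * n a ≤ q * q * q))
        h4.range ?_
      exact Poly.and (Poly.decide_le (Poly.const 3) (Poly.snd Poly.id))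
        (Poly.decide_le (h2.comp (Poly.fst Poly.id))
          (Poly.mul (Poly.mul (Poly.snd Poly.id) (Poly.snd Poly.id)) (Poly.snd Poly.id)))
    · refine isPrimeB_poly (UPoly.of_le (n := fun p : α × ℕ => 4 * n p.1 + 1) ?_
        (h4.comp (Poly.fst Poly.id)) fun a => min_le_right _ _)
      exact Poly.min (Poly.snd Poly.id) (h4.toPoly.comp (Poly.fst Poly.id))
  refine h.congr fun a => ?_
  unfold thePrime
  rw [List.filter_filter]
  congr 1
  refine List.filter_congr fun q hq => ?_
  rw [List.mem_range] at hq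
  rw [min_eq_left hq.le]

theorem condC_poly {p s c d : α → ℕ} (hp : Poly p) (hs : Poly s) (hc : Poly c) (hd : Poly d) :
    Poly (fun a => condC (p a) (s a) (c a) (d a)) := by
  unfold condC
  have h1 : Poly (fun a => s a / p a % p a + (p a - c a)) :=
    Poly.add (Poly.mod (Poly.div hs hp) hp) (Poly.sub hp hc)
  exact Poly.decide_eq
    (Poly.mod (Poly.add (Poly.div hs (Poly.mul hp hp)) (Poly.sub hp hd)) hp)
    (Poly.mod (Poly.add (Poly.mul (Poly.mod hs hp) (Poly.mod hs hp)) (Poly.mul h1 h1)) hp)

theorem theSet_poly {n : α → ℕ} (hn : UPoly n) : Poly (fun a => theSet (n a)) := by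
  unfold theSet
  have h4 : UPoly (fun a => 4 * n a) := UPoly.mul (UPoly.const 4) hn
  have h2 : Poly (fun a => 2 * n a) := (UPoly.mul (UPoly.const 2) hn).toPoly
  refine Poly.filter (p := fun a s => decide (2 * n a ≤ s) &&
    (condC (thePrime (n a)) s 0 0 || condC (thePrime (n a)) s 0 1 ||
      condC (thePrime (n a)) s 1 0 || condC (thePrime (n a)) s 1 1)) h4.range ?_
  have hp : Poly (fun x : α × ℕ => thePrime (n x.1)) := (thePrime_poly hn).comp (Poly.fst Poly.id)
  have hs : Poly (fun x : α × ℕ => x.2) := Poly.snd Poly.id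
  refine Poly.and (Poly.decide_le (h2.comp (Poly.fst Poly.id)) hs) ?_
  exact Poly.or (Poly.or (Poly.or (condC_poly hp hs (Poly.const 0) (Poly.const 0))
    (condC_poly hp hs (Poly.const 0) (Poly.const 1)))
    (condC_poly hp hs (Poly.const 1) (Poly.const 0)))
    (condC_poly hp hs (Poly.const 1) (Poly.const 1))

end Pool.Agent.NPC.V11223AS
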